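import Pool.Agent.H564R3.RN.Main

/-!
Coins save no space: randomised pure dynamic programs for constraint networks.
-/

set_option autoImplicit false

namespace Pool.Agent.Results.MP_5e85fc_lc.CoinsSaveNoSpace

open Finset
open Pool.Agent.H564R3.PW (Instr exec)
open Pool.Agent.H564R3.TD
open Pool.Agent.H564R3.RN

/-- **Coins save no space.** (1) Randomised (min,+) programs with two-sided error `e` for
networks of treedepth greater than `d`. (2) The same for a path with `2 ^ h` constraints.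
(3) Paths have programs with `(h + 2) * m + 3` registers and `10 * m ^ 2 * 2 ^ h` instructions. -/
theorem result :
    (∀ (n r m : ℕ) (sc : Fin r → Finset (Fin n)), (∀ v, ∃ e, v ∈ sc e) → 1 ≤ m →
      ∀ d : ℕ, ¬ TDle sc d univ →
      ∀ (ρ : Type) [Fintype ρ] [DecidableEq ρ] (Λ : Type) [Fintype Λ] (e : ℝ) (pr : Λ → ℝ)
        (p : Λ → List (Instr (Tropical (WithTop ℝ)) (CVar n r m) ρ)) (o : ρ),
        RandomMin sc e pr p o → ∀ T : ℕ, (∀ l, (p l).length ≤ T) →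
          (1 - 2 * e) * (m : ℝ) ^ (d + 1) ≤
            2 * (T : ℝ) * (((Nat.clog 2 T : ℝ) + 1) * (Fintype.card ρ : ℝ)) ^ (d + 1)) ∧
    (∀ h m : ℕ, 1 ≤ m →
      ∀ (ρ : Type) [Fintype ρ] [DecidableEq ρ] (Λ : Type) [Fintype Λ] (e : ℝ) (pr : Λ → ℝ)
        (p : Λ → List (Instr (Tropical (WithTop ℝ)) (CVar (2 ^ h + 1) (2 ^ h) m) ρ)) (o : ρ),
        RandomMin (pathSc (2 ^ h)) e pr p o → ∀ T : ℕ, (∀ l, (p l).length ≤ T) →
          (1 - 2 * e) * (m : ℝ) ^ (h + 1) ≤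
            2 * (T : ℝ) * (((Nat.clog 2 T : ℝ) + 1) * (Fintype.card ρ : ℝ)) ^ (h + 1)) ∧
    (∀ (h m : ℕ) (R : Type) [CommSemiring R], ∃ (ρ : Type) (_ : Fintype ρ) (_ : DecidableEq ρ)
      (p : List (Instr R (CVar (2 ^ h + 1) (2 ^ h) m) ρ)) (o : ρ),
      Fintype.card ρ = (h + 2) * m + 3 ∧ p.length ≤ 10 * m ^ 2 * 2 ^ h ∧
      ∀ w : CVar (2 ^ h + 1) (2 ^ h) m → R, exec w p o = netSum (pathSc (2 ^ h)) w) := by
  refine ⟨?_, ?_, ?_⟩
  · intro n r m sc hcov hm d hd ρ _ _ Λ _ e pr p o h T hT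
    exact net_min sc hcov hm d hd e pr p o h T hT
  · intro h m hm ρ _ _ Λ _ e pr p o hr T hT
    exact net_min (pathSc (2 ^ h)) (path_cov (2 ^ h) Nat.one_le_two_pow) hm h
      (path_depth h (2 ^ h) le_rfl) e pr p o hr T hT
  · intro h m R _
    exact path_prog h m

end Pool.Agent.Results.MP_5e85fc_lc.CoinsSaveNoSpace
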