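import Pool.Agent.H870R2.LS.FinP
import Pool.Agent.H870R2.LS.PdaPoly
import Pool.Agent.H870R2.LS.SymP

set_option autoImplicit false

/-! # Local symmetry: multihead finite automata versus multihead pushdown automata

Nondeterministic networks with a pushdown store (the nonuniform version of two-way multihead
pushdown automata: the nodes are the pairs of a state and head positions, the labels of the arcs
are literals of the input) that decide if the target `t` of a path system on `V` is derivable.

(1) If every derivable input has an accepting computation with at most `T` steps and the network is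
symmetric on `r` disjoint blocks of five elements with
`15000 (log_2 T + 1) k ^ 2 (log_5 r + 2) ^ 2 ≤ r`, then it has at least `5 ^ k` nodes.
(2) If the network never pushes (finite automata) then `3000 k ^ 3 (log_5 r + 2) ^ 2 ≤ r` is enough
and no bound on the time is needed.
(3) A pushdown network with at most `(|V| + 1) ^ 2` nodes that is symmetric under all permutations
fixing `t` decides the problem.
(4) Every pushdown network can be made symmetric on `r` blocks at the cost of a factor `60 ^ r`
in size and two more steps. -/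

namespace Pool.Agent.Results.MP_5e85fc_lc.LocalSymmetryPDA

open Pool.Agent.H870R2.LS

theorem result :
    (∀ (V Q : Type) [Fintype V] [Fintype Q] (N : PNet (Inp V) Q) (t : V),
      (∀ x, (∃ n, N.AccIn x n) ↔ Der x t) →
      ∀ (r : ℕ) (blk : Fin r → (Fin 5 ↪ V)),
        (Pairwise fun i j => Disjoint (Set.range (blk i)) (Set.range (blk j))) →
        (∀ i, t ∉ Set.range (blk i)) → (∀ i, N.SymOn (blk i)) →
        ∀ k : ℕ, 1 ≤ k →
          ((∃ T : ℕ, (∀ x, Der x t → ∃ n ≤ T, N.AccIn x n) ∧
              15000 * (Nat.log 2 T + 1) * k ^ 2 * (Nat.log 5 r + 2) ^ 2 ≤ r) ∨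
            (∀ a s b, ¬ N.push a s b) ∧ 3000 * k ^ 3 * (Nat.log 5 r + 2) ^ 2 ≤ r) →
          5 ^ k ≤ Fintype.card Q) ∧
    (∀ (V : Type) [Fintype V] (t : V),
      ∃ (Q : Type) (_ : Fintype Q) (N : PNet (Inp V) Q),
        (∀ x, (∃ n, N.AccIn x n) ↔ Der x t) ∧
        (∀ p : Equiv.Perm V, p t = t → ∃ φ, N.IsAut (inpPerm p) φ) ∧
        Fintype.card Q ≤ (Fintype.card V + 1) ^ 2) ∧
    (∀ (V Q : Type) [Fintype V] [Fintype Q] (N : PNet (Inp V) Q) (t : V),
      (∀ x, (∃ n, N.AccIn x n) ↔ Der x t) →
      ∀ (r : ℕ) (blk : Fin r → (Fin 5 ↪ V)),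
        (Pairwise fun i j => Disjoint (Set.range (blk i)) (Set.range (blk j))) →
        (∀ i, t ∉ Set.range (blk i)) →
        ∃ (Q' : Type) (_ : Fintype Q') (N' : PNet (Inp V) Q'),
          (∀ x, (∃ n, N'.AccIn x n) ↔ Der x t) ∧
          (∀ x n, N.AccIn x n → N'.AccIn x (n + 2)) ∧ (∀ i, N'.SymOn (blk i)) ∧
          Fintype.card Q' = 60 ^ r * Fintype.card Q + 2) :=
  ⟨fun _ _ _ _ N t hN r blk hd ht hs k hk hr => hr.elim
      (fun ⟨T, hT, hr⟩ => lower_pda N t hN T hT r blk hd ht hs k hk hr)
      (fun hr => lower_noPush N hr.1 t hN r blk hd ht hs k hk hr.2),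
    fun _ _ t => pda_poly t,
    fun _ _ _ _ N t hN r blk hd ht => symmetrize_pda N t hN r blk hd ht⟩

end Pool.Agent.Results.MP_5e85fc_lc.LocalSymmetryPDA
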