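import Pool.Agent.H657R3.Ud2

/-!
Read-once linear branching programs in the general sense: the linear forms on every path are
linearly independent. Deterministic, unambiguous, and with few accepting computations.

For an accepted input `z` cut the accepting walk where `n - m` dimensions have been tested: `z`
reaches a node `v` by a walk `P z` and is accepted from there by `Q z`. If `z` and `z'` are cut at
the same node, the tests on `P z` and on `Q z'` are independent, so some input `y` follows `P z`
and then `Q z'`; it is accepted. For fixed `z'` there are few such points `y` (the graph of the
cube map has few points in affine subspaces of small codimension), and for a given `y` there are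
few walks `P z` (ambiguity) and then few points `z` (the graph is a Sidon set).
-/

namespace Pool.Agent.Results.MP_5e85fc_lc.ReadOnceLinearPrograms

open Pool.Agent.H657R3

/-- Let `K` be a field with `2 ^ h` elements and let `P` be a nondeterministic linear branching
program with finitely many nodes, with inputs in `K × K`, which accepts only pairs `(x, x³)` and
which has at most `a` accepting walks on every input. Let `2 m ≤ h`, and suppose that for every
walk from the source to a node `v` whose tests span a space of codimension `m`, and every walk from
`v` to the accepting node, the spans of the tests of the two walks meet only in `0` (this holds if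
the linear forms on every path are linearly independent). Then the number `c` of accepted pairs
satisfies `c² 2^m ≤ 144 (2^h a |N|)²`, where `|N|` is the number of nodes. -/
theorem result {K : Type} [Field K] [Fintype K] [Algebra (ZMod 2) K] {N E : Type} [Fintype N]
    (P : NLBP (K × K) N E) (h m a : ℕ) (hK : Fintype.card K = 2 ^ h) (hm : 2 * m ≤ h)
    (hacc : ∀ z : K × K, P.Accepts z → z.2 = z.1 ^ 3)
    (hamb : ∀ (z : K × K) (L : Finset (List E)),
      (∀ es ∈ L, P.Walk P.s es P.t ∧ ∀ e ∈ es, P.q e z = P.b e) → L.card ≤ a)
    (hread : ∀ v es es', P.Walk P.s es v → P.Walk v es' P.t →
      Module.finrank (ZMod 2) (P.tests es) + m = Module.finrank (ZMod 2) (K × K) →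
      P.tests es ⊓ P.tests es' = ⊥) :
    {z : K × K | P.Accepts z}.ncard ^ 2 * 2 ^ m ≤
      144 * (2 ^ h * (a * Fintype.card N)) ^ 2 := by
  classical
  exact UD.main_bound P h m hK hm hacc a hamb hread

end Pool.Agent.Results.MP_5e85fc_lc.ReadOnceLinearPrograms
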